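import Pool.Agent.K1H44.LC.Plan

/-! # LC-FL: nearly periodic shifts of `⌊u θ⌋` (for helper44, project LC) -/

set_option autoImplicit false

namespace Pool.Agent.K1H4.LC

open Finset Pool.Agent.K1H44.LC

/-- distance to the nearest integer -/
noncomputable def nn (x : ℝ) : ℝ := |x - round x|

lemma nn_le (x : ℝ) (m : ℤ) : nn x ≤ |x - m| := round_le x m

lemma nn_pos {θ : ℝ} (hθ : Irrational θ) {u : ℕ} (hu : 1 ≤ u) : 0 < nn ((u : ℝ) * θ) := by
  unfold nn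
  rw [abs_pos]
  intro h
  have h1 : Irrational ((u : ℝ) * θ) := hθ.natCast_mul (by omega)
  exact h1.ne_int (round ((u : ℝ) * θ)) (by linarith)

lemma exists_eta {θ : ℝ} (hθ : Irrational θ) (K : ℕ) :
    ∃ η : ℝ, 0 < η ∧ η ≤ 1 / 4 ∧ ∀ u : ℕ, 1 ≤ u → u ≤ K + 1 → 2 * η ≤ nn ((u : ℝ) * θ) := by
  have hne : (Finset.Icc 1 (K + 1)).Nonempty := ⟨1, by simp⟩
  refine ⟨min (((Finset.Icc 1 (K + 1)).inf' hne fun u => nn ((u : ℝ) * θ)) / 2) (1 / 4), ?_,
    min_le_right _ _, fun u h1 h2 => ?_⟩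
  · refine lt_min ?_ (by norm_num)
    have : 0 < (Finset.Icc 1 (K + 1)).inf' hne fun u => nn ((u : ℝ) * θ) := by
      rw [Finset.lt_inf'_iff]
      intro u hu
      exact nn_pos hθ (Finset.mem_Icc.1 hu).1
    linarith
  · have h3 := Finset.inf'_le (fun u : ℕ => nn ((u : ℝ) * θ)) (Finset.mem_Icc.2 ⟨h1, h2⟩)
    have h4 := min_le_left (((Finset.Icc 1 (K + 1)).inf' hne fun u => nn ((u : ℝ) * θ)) / 2)
      ((1 : ℝ) / 4)
    linarith

lemma exists_b (θ η : ℝ) (hη : 0 < η) : ∃ b : ℕ, 1 ≤ b ∧ nn ((b : ℝ) * θ) < η := by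
  obtain ⟨n, hn⟩ := exists_nat_one_div_lt hη
  obtain ⟨k, hk, _, h⟩ := Real.exists_nat_abs_mul_sub_round_le θ (Nat.succ_pos n)
  refine ⟨k, hk, lt_of_le_of_lt (h.trans ?_) hn⟩
  apply one_div_le_one_div_of_le (by positivity)
  push_cast
  linarith

theorem t_FL : S_FL := by
  classical
  intro θ hθ0 hθ K
  obtain ⟨η, hη, hη4, hηK⟩ := exists_eta hθ K
  have hex := exists_b θ η hη
  obtain ⟨b, ⟨hb1, hbη⟩, hbmin⟩ : ∃ b : ℕ, (1 ≤ b ∧ nn ((b : ℝ) * θ) < η) ∧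
      ∀ u : ℕ, 1 ≤ u → nn ((u : ℝ) * θ) < η → b ≤ u :=
    ⟨Nat.find hex, Nat.find_spec hex, fun u h1 h2 => Nat.find_min' hex ⟨h1, h2⟩⟩
  obtain ⟨a, ha⟩ : ∃ a : ℤ, a = round ((b : ℝ) * θ) := ⟨_, rfl⟩
  obtain ⟨δ, hδ⟩ : ∃ δ : ℝ, δ = (b : ℝ) * θ - a := ⟨_, rfl⟩
  have hδη : |δ| < η := by rw [hδ, ha]; exact hbη
  have hδ0 : δ ≠ 0 := by
    have h := nn_pos hθ hb1
    unfold nn at h
    rw [← ha, ← hδ, abs_pos] at h
    exact h
  have hbθ : (b : ℝ) * θ = a + δ := by rw [hδ]; ring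
  have hfl : ∀ u : ℕ, ⌊((u + b : ℕ) : ℝ) * θ⌋ = ⌊(u : ℝ) * θ + δ⌋ + a := by
    intro u
    rw [← Int.floor_add_intCast]
    congr 1
    push_cast
    linear_combination hbθ
  -- the crossing exists
  have hcr : ∃ u : ℕ, 1 ≤ u ∧ ⌊((u + b : ℕ) : ℝ) * θ⌋ ≠ ⌊(u : ℝ) * θ⌋ + a := by
    by_contra hcon
    push Not at hcon
    have h1 : ∀ n : ℕ, ⌊((1 + n * b : ℕ) : ℝ) * θ⌋ = ⌊θ⌋ + n * a := by
      intro n
      induction n with
      | zero => simp
      | succ n ih =>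
        have h2 := hcon (1 + n * b) (by omega)
        have e : 1 + (n + 1) * b = 1 + n * b + b := by ring
        rw [e, h2, ih]
        push_cast
        ring
    obtain ⟨n, hn⟩ := exists_nat_gt (2 / |δ|)
    have hδp : 0 < |δ| := abs_pos.2 hδ0
    rw [div_lt_iff₀ hδp] at hn
    have h3 := h1 n
    have h4 := Int.floor_le (((1 + n * b : ℕ) : ℝ) * θ)
    have h5 := Int.lt_floor_add_one (((1 + n * b : ℕ) : ℝ) * θ)
    rw [h3] at h4 h5
    have h6 := Int.floor_le θ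
    have h7 := Int.lt_floor_add_one θ
    push_cast at h4 h5
    have e1 : (1 + (n : ℝ) * b) * θ = θ + n * a + n * δ := by
      linear_combination (n : ℝ) * hbθ
    rw [e1] at h4 h5
    have h8 : |(n : ℝ) * δ| < 2 := by
      rw [abs_lt]
      constructor <;> linarith
    rw [abs_mul, abs_of_nonneg (Nat.cast_nonneg n : (0 : ℝ) ≤ n)] at h8
    linarith
  obtain ⟨U, ⟨hU1, hUc⟩, hUmin⟩ : ∃ U : ℕ, (1 ≤ U ∧ ⌊((U + b : ℕ) : ℝ) * θ⌋ ≠ ⌊(U : ℝ) * θ⌋ + a) ∧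
      ∀ u : ℕ, 1 ≤ u → u < U → ⌊((u + b : ℕ) : ℝ) * θ⌋ = ⌊(u : ℝ) * θ⌋ + a := by
    refine ⟨Nat.find hcr, Nat.find_spec hcr, fun u h1 h2 => ?_⟩
    by_contra h
    exact Nat.find_min hcr h2 ⟨h1, h⟩
  -- once `U θ` is within `|δ|` of an integer and `U ≠ b`
  have hfin : ∀ m : ℤ, |(U : ℝ) * θ - m| ≤ |δ| → U ≠ b → b + K ≤ U := by
    intro m hm hne
    have h1 : b ≤ U := hbmin U hU1 (lt_of_le_of_lt ((nn_le _ m).trans hm) hδη)
    have h2 : 1 ≤ U - b := by omega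
    by_contra hcon
    have h3 := hηK (U - b) h2 (by omega)
    have h4 := nn_le (((U - b : ℕ) : ℝ) * θ) (m - a)
    have h5 : |((U - b : ℕ) : ℝ) * θ - ((m - a : ℤ) : ℝ)| ≤ 2 * |δ| := by
      have e : ((U - b : ℕ) : ℝ) * θ - ((m - a : ℤ) : ℝ) = ((U : ℝ) * θ - m) - δ := by
        rw [Nat.cast_sub h1, hδ]
        push_cast
        ring
      rw [e]
      have := abs_sub ((U : ℝ) * θ - m) δ
      linarith
    linarith
  have hfa : ⌊(b : ℝ) * θ⌋ ≤ a := by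
    rw [← Int.lt_add_one_iff, Int.floor_lt, hbθ]
    push_cast
    have := (abs_lt.1 hδη).2
    linarith
  have hδb := abs_lt.1 hδη
  rcases lt_or_gt_of_ne hδ0 with hneg | hpos
  · -- `δ < 0`
    have habs : |δ| = -δ := abs_of_neg hneg
    have hfu : ∀ u : ℕ, ⌊(u : ℝ) * θ⌋ - 1 ≤ ⌊(u : ℝ) * θ + δ⌋ ∧ ⌊(u : ℝ) * θ + δ⌋ ≤ ⌊(u : ℝ) * θ⌋ := by
      intro u
      constructor
      · rw [Int.le_floor]
        push_cast
        have := Int.floor_le ((u : ℝ) * θ)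
        linarith
      · exact Int.floor_le_floor (by linarith)
    refine ⟨b, U, a, hb1, ?_, hfa, hUmin, hUc, Or.inr fun u => ?_⟩
    · -- crossing at `U`
      rw [hfl] at hUc
      have h1 : ⌊(U : ℝ) * θ + δ⌋ = ⌊(U : ℝ) * θ⌋ - 1 := by
        have h2 := hfu U
        have h3 : ⌊(U : ℝ) * θ + δ⌋ ≠ ⌊(U : ℝ) * θ⌋ := fun h => hUc (by rw [h])
        omega
      have h2 : (U : ℝ) * θ + δ < ⌊(U : ℝ) * θ⌋ := by
        have h3 := Int.lt_floor_add_one ((U : ℝ) * θ + δ)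
        rw [h1] at h3
        push_cast at h3
        linarith
      refine hfin ⌊(U : ℝ) * θ⌋ ?_ ?_
      · have h3 := Int.floor_le ((U : ℝ) * θ)
        rw [abs_of_nonneg (by linarith), habs]
        linarith
      · rintro rfl
        have h3 : ⌊(U : ℝ) * θ⌋ = a - 1 := by
          rw [Int.floor_eq_iff, hbθ]
          push_cast
          constructor <;> linarith
        rw [h3, hbθ] at h2
        push_cast at h2
        linarith
    · rw [hfl]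
      have := hfu u
      omega
  · have habs : |δ| = δ := abs_of_pos hpos
    have hfu : ∀ u : ℕ, ⌊(u : ℝ) * θ⌋ ≤ ⌊(u : ℝ) * θ + δ⌋ ∧ ⌊(u : ℝ) * θ + δ⌋ ≤ ⌊(u : ℝ) * θ⌋ + 1 := by
      intro u
      constructor
      · exact Int.floor_le_floor (by linarith)
      · rw [← Int.lt_add_one_iff, Int.floor_lt]
        push_cast
        have := Int.lt_floor_add_one ((u : ℝ) * θ)
        linarith
    refine ⟨b, U, a, hb1, ?_, hfa, hUmin, hUc, Or.inl fun u => ?_⟩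
    · rw [hfl] at hUc
      have h1 : ⌊(U : ℝ) * θ + δ⌋ = ⌊(U : ℝ) * θ⌋ + 1 := by
        have h2 := hfu U
        have h3 : ⌊(U : ℝ) * θ + δ⌋ ≠ ⌊(U : ℝ) * θ⌋ := fun h => hUc (by rw [h])
        omega
      have h2 : (⌊(U : ℝ) * θ⌋ : ℝ) + 1 ≤ (U : ℝ) * θ + δ := by
        have h3 := Int.floor_le ((U : ℝ) * θ + δ)
        rw [h1] at h3
        push_cast at h3
        linarith
      refine hfin (⌊(U : ℝ) * θ⌋ + 1) ?_ ?_
      · have h3 := Int.lt_floor_add_one ((U : ℝ) * θ)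
        push_cast
        rw [abs_of_nonpos (by linarith), habs]
        linarith
      · rintro rfl
        have h3 : ⌊(U : ℝ) * θ⌋ = a := by
          rw [Int.floor_eq_iff, hbθ]
          constructor <;> linarith
        rw [h3, hbθ] at h2
        linarith
    · rw [hfl]
      have := hfu u
      omega

end Pool.Agent.K1H4.LC
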