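import Pool.Agent.K1H44.LC.Plan2

set_option autoImplicit false

/-! Project LC: `S_APP2` (adapted from `Pool.Agent.K1H78.LC.t_APP` of helper78). -/

namespace Pool.Agent.K1H4.LC

open Pool.Agent.K1H44.LC

theorem t_APP2 : S_APP2 := by
  intro hDIO hID p q hpq c hc
  obtain ⟨hp, hq, hne⟩ := hpq
  have hp2 : (2 : ℝ) ≤ p := by exact_mod_cast hp.two_le
  have hq2 : (2 : ℝ) ≤ q := by exact_mod_cast hq.two_le
  have hp0 : (0 : ℝ) < p := by linarith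
  have hq0 : (0 : ℝ) < q := by linarith
  have hq1 : (1 : ℝ) ≤ q := by linarith
  obtain ⟨B, hB⟩ := pow_unbounded_of_one_lt ((2 * (q : ℝ) ^ 4 / c) ^ 2) (show (1 : ℝ) < 2 by norm_num)
  obtain ⟨b, U, a, hb1, hBb, hbU, hLa, h1, h2, h3⟩ := hDIO p q ⟨hp, hq, hne⟩ B
  obtain ⟨hsum, N, hN⟩ := hID p q ⟨hp, hq, hne⟩ b a hb1 hLa
  have hU1 : 1 ≤ U := by omega
  obtain ⟨W, hW⟩ : ∃ W, U = W + 1 := ⟨U - 1, by omega⟩
  have hDpos : (0 : ℤ) < (p : ℤ) ^ b * (q : ℤ) ^ a - 1 := by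
    have h4 : (2 : ℤ) ≤ (p : ℤ) ^ b := by
      calc (2 : ℤ) ≤ p := by exact_mod_cast hp.two_le
        _ = (p : ℤ) ^ 1 := (pow_one _).symm
        _ ≤ (p : ℤ) ^ b := pow_le_pow_right₀ (by exact_mod_cast hp.one_lt.le) hb1
    have h5 : (1 : ℤ) ≤ (q : ℤ) ^ a := one_le_pow₀ (by exact_mod_cast hq.one_lt.le)
    nlinarith
  have hDc : (((p : ℤ) ^ b * (q : ℤ) ^ a - 1 : ℤ) : ℝ) = (p : ℝ) ^ b * (q : ℝ) ^ a - 1 := by
    push_cast
    ring
  -- the terms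
  have hL0 : L p q 0 = 0 := by unfold L; simp
  have haL : a ≤ L p q b + 1 := by
    rcases h3 with h3 | h3
    · have := (h3 0).1
      rw [hL0, zero_add, zero_add] at this
      omega
    · have := (h3 0).2
      rw [hL0, zero_add, zero_add] at this
      omega
  have hqL : ∀ u, (q : ℝ) ^ L p q u ≤ (p : ℝ) ^ u := by
    intro u
    have : q ^ L p q u ≤ p ^ u := Nat.pow_log_le_self q (pow_ne_zero u hp.ne_zero)
    exact_mod_cast this
  have hqL' : ∀ u, (p : ℝ) ^ u ≤ (q : ℝ) ^ (L p q u + 1) := by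
    intro u
    have : p ^ u < q ^ (L p q u + 1) := Nat.lt_pow_succ_log_self hq.one_lt _
    exact_mod_cast this.le
  have hz : ∀ u, u < W → er p q b a u = 0 := by
    intro u hu
    unfold er
    rw [h1 (u + 1) (by omega) (by omega)]
    have : (q : ℝ) ^ a / ((q : ℝ) ^ (L p q (u + 1) + a)) = 1 / (q : ℝ) ^ L p q (u + 1) := by
      rw [pow_add]
      field_simp
    rw [this, sub_self, mul_zero]
  set r : ℝ := 1 / (p : ℝ) ^ 2 with hr
  have hr0 : 0 < r := by positivity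
  have hr4 : r ≤ 1 / 4 := by
    rw [hr]
    apply one_div_le_one_div_of_le (by norm_num)
    nlinarith
  -- comparison of powers
  have hcmp : ∀ u x, L p q (u + 1) + a ≤ x → (q : ℝ) ^ a / (q : ℝ) ^ x ≤ 1 / (q : ℝ) ^ L p q (u + 1) := by
    intro u x hx
    rw [div_le_div_iff₀ (by positivity) (by positivity), one_mul, ← pow_add]
    exact pow_le_pow_right₀ hq1 (by omega)
  have hbd : ∀ u, |er p q b a u| ≤ (q : ℝ) ^ 2 * r ^ (u + 1) := by
    intro u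
    have e1 : 1 / (p : ℝ) ^ (u + 1) * ((q : ℝ) * (1 / (q : ℝ) ^ L p q (u + 1))) ≤
        (q : ℝ) ^ 2 * r ^ (u + 1) := by
      have h4 : 1 / (q : ℝ) ^ L p q (u + 1) ≤ q * (1 / (p : ℝ) ^ (u + 1)) := by
        rw [mul_one_div, div_le_div_iff₀ (by positivity) (by positivity), one_mul]
        have := hqL' (u + 1)
        rw [pow_succ (q : ℝ)] at this
        linarith
      have h5 : r ^ (u + 1) = 1 / (p : ℝ) ^ (u + 1) * (1 / (p : ℝ) ^ (u + 1)) := by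
        rw [hr, div_pow, one_pow, ← pow_mul, mul_comm 2, pow_mul, pow_two, one_div_mul_one_div]
      rw [h5]
      have h6 : (q : ℝ) * (1 / (q : ℝ) ^ L p q (u + 1)) ≤ q * (q * (1 / (p : ℝ) ^ (u + 1))) :=
        mul_le_mul_of_nonneg_left h4 hq0.le
      calc 1 / (p : ℝ) ^ (u + 1) * ((q : ℝ) * (1 / (q : ℝ) ^ L p q (u + 1))) ≤
            1 / (p : ℝ) ^ (u + 1) * (q * (q * (1 / (p : ℝ) ^ (u + 1)))) :=
            mul_le_mul_of_nonneg_left h6 (by positivity)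
        _ = _ := by ring
    refine le_trans ?_ e1
    unfold er
    rw [abs_mul, abs_of_nonneg (show (0 : ℝ) ≤ 1 / (p : ℝ) ^ (u + 1) by positivity)]
    apply mul_le_mul_of_nonneg_left _ (by positivity)
    have hx0 : 0 ≤ (q : ℝ) ^ a / (q : ℝ) ^ L p q (u + 1 + b) := by positivity
    have hy0 : 0 < 1 / (q : ℝ) ^ L p q (u + 1) := by positivity
    have hxy : (q : ℝ) ^ a / (q : ℝ) ^ L p q (u + 1 + b) ≤ q * (1 / (q : ℝ) ^ L p q (u + 1)) := by
      rw [mul_one_div, div_le_div_iff₀ (by positivity) (by positivity), ← pow_add, mul_comm,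
        ← pow_succ]
      apply pow_le_pow_right₀ hq1
      rcases h3 with h3 | h3
      · have := (h3 (u + 1)).1
        omega
      · have := (h3 (u + 1)).2
        omega
    rw [abs_le]
    constructor
    · nlinarith
    · nlinarith
  have htail : |∑' u, er p q b a u| ≤ 2 * (q : ℝ) ^ 2 * r ^ U := by
    have h4 := hsum.sum_add_tsum_nat_add W
    have h5 : ∑ i ∈ Finset.range W, er p q b a i = 0 :=
      Finset.sum_eq_zero fun i hi => hz i (Finset.mem_range.mp hi)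
    rw [h5, zero_add] at h4
    rw [← h4]
    have hg : HasSum (fun v : ℕ => (q : ℝ) ^ 2 * r ^ U * r ^ v) ((q : ℝ) ^ 2 * r ^ U * (1 - r)⁻¹) :=
      (hasSum_geometric_of_lt_one hr0.le (by linarith)).mul_left _
    have h6 := tsum_of_norm_bounded (f := fun v => er p q b a (v + W)) hg (fun v => by
      rw [Real.norm_eq_abs]
      refine (hbd (v + W)).trans (le_of_eq ?_)
      rw [show v + W + 1 = U + v by omega, pow_add]
      ring)
    rw [Real.norm_eq_abs] at h6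
    refine h6.trans ?_
    have h7 : (1 - r)⁻¹ ≤ 2 := by
      rw [inv_le_comm₀ (by linarith) (by norm_num)]
      linarith
    calc (q : ℝ) ^ 2 * r ^ U * (1 - r)⁻¹ ≤ (q : ℝ) ^ 2 * r ^ U * 2 :=
          mul_le_mul_of_nonneg_left h7 (by positivity)
      _ = _ := by ring
  -- the numbers
  have hD1 : (p : ℝ) ^ b * (q : ℝ) ^ a - 1 ≤ q * ((p : ℝ) ^ b) ^ 2 := by
    have h4 : (q : ℝ) ^ a ≤ q * (p : ℝ) ^ b := by
      calc (q : ℝ) ^ a ≤ (q : ℝ) ^ (L p q b + 1) := pow_le_pow_right₀ hq1 haL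
        _ = q * (q : ℝ) ^ L p q b := by rw [pow_succ]; ring
        _ ≤ q * (p : ℝ) ^ b := mul_le_mul_of_nonneg_left (hqL b) hq0.le
    have h5 := mul_le_mul_of_nonneg_left h4 (by positivity : (0 : ℝ) ≤ (p : ℝ) ^ b)
    have h6 : (p : ℝ) ^ b * (q * (p : ℝ) ^ b) = q * ((p : ℝ) ^ b) ^ 2 := by ring
    linarith
  have hDnat : 1 ≤ p ^ b * q ^ a - 1 := by
    have h4 : (1 : ℤ) ≤ (p : ℤ) ^ b * (q : ℤ) ^ a - 1 := by omega
    have h5 : (2 : ℤ) ≤ ((p ^ b * q ^ a : ℕ) : ℤ) := by push_cast; omega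
    have h6 : 2 ≤ p ^ b * q ^ a := by exact_mod_cast h5
    omega
  have hDr : ((p ^ b * q ^ a - 1 : ℕ) : ℝ) = (p : ℝ) ^ b * (q : ℝ) ^ a - 1 := by
    rw [Nat.cast_sub (by omega)]
    push_cast
    ring
  have hD0 : 0 < (p : ℝ) ^ b * (q : ℝ) ^ a - 1 := by
    rw [← hDr]
    exact_mod_cast (by omega : 0 < p ^ b * q ^ a - 1)
  refine ⟨p ^ b * q ^ a - 1, N, hDnat, ?_⟩
  rw [hDr, hN]
  obtain ⟨D, hD⟩ : ∃ D : ℝ, D = (p : ℝ) ^ b * (q : ℝ) ^ a - 1 := ⟨_, rfl⟩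
  obtain ⟨P, hP⟩ : ∃ P : ℝ, P = (p : ℝ) ^ b := ⟨_, rfl⟩
  rw [← hD] at hD0 hD1 ⊢
  rw [← hP] at hD1
  have hPB : (2 * (q : ℝ) ^ 4 / c) ^ 2 < P := by
    refine hB.trans_le ?_
    rw [hP]
    calc (2 : ℝ) ^ B ≤ 2 ^ b := pow_le_pow_right₀ (by norm_num) hBb
      _ ≤ (p : ℝ) ^ b := pow_le_pow_left₀ (by norm_num) hp2 b
      _ = _ := rfl
  have hP0 : 0 < P := by rw [hP]; positivity
  obtain ⟨s, hs⟩ : ∃ s : ℝ, s = √P := ⟨_, rfl⟩
  have hs0 : 0 < s := by rw [hs]; exact Real.sqrt_pos.2 hP0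
  have hsP : s ^ 2 = P := by rw [hs, Real.sq_sqrt hP0.le]
  have hsc : 2 * (q : ℝ) ^ 4 / c < s := by
    have h4 : (2 * (q : ℝ) ^ 4 / c) ^ 2 < s ^ 2 := by rw [hsP]; exact hPB
    exact lt_of_pow_lt_pow_left₀ 2 hs0.le h4
  have hr4' : r ^ U ≤ (s ^ 6)⁻¹ := by
    have h4 : s ^ 6 = (p : ℝ) ^ (3 * b) := by
      rw [show s ^ 6 = (s ^ 2) ^ 3 by ring, hsP, hP, ← pow_mul, mul_comm]
    have h5 : r ^ U = ((p : ℝ) ^ (2 * U))⁻¹ := by
      rw [hr, div_pow, one_pow, ← pow_mul, one_div]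
    rw [h4, h5]
    exact inv_anti₀ (by positivity) (pow_le_pow_right₀ (by linarith) hbU)
  have hDs : D ≤ (q * s) ^ 4 := by
    refine hD1.trans ?_
    rw [← hsP, show (q * s) ^ 4 = (q : ℝ) ^ 4 * (s ^ 2) ^ 2 by ring]
    refine mul_le_mul_of_nonneg_right ?_ (by positivity)
    calc (q : ℝ) = q ^ 1 := (pow_one _).symm
      _ ≤ (q : ℝ) ^ 4 := pow_le_pow_right₀ hq1 (by norm_num)
  have hDq : D ^ (1 / 4 : ℝ) ≤ q * s := by
    have h4 := Real.rpow_le_rpow hD0.le hDs (by norm_num : (0 : ℝ) ≤ 1 / 4)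
    have h5 : ((q * s) ^ 4) ^ (1 / 4 : ℝ) = q * s := by
      have h6 := Real.pow_rpow_inv_natCast (show 0 ≤ (q : ℝ) * s by positivity)
        (show (4 : ℕ) ≠ 0 by norm_num)
      rw [show ((4 : ℕ) : ℝ)⁻¹ = 1 / 4 by norm_num] at h6
      exact h6
    rwa [h5] at h4
  have hsplit : D ^ (1 + (1 / 4 : ℝ)) = D * D ^ (1 / 4 : ℝ) := by
    rw [Real.rpow_add hD0, Real.rpow_one]
  rw [hsplit]
  have hm1 : D * D ^ (1 / 4 : ℝ) ≤ (q * P ^ 2) * (q * s) :=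
    mul_le_mul hD1 hDq (Real.rpow_nonneg hD0.le _) (by positivity)
  have hm2 : |∑' u, er p q b a u| ≤ 2 * (q : ℝ) ^ 2 * (s ^ 6)⁻¹ :=
    htail.trans (mul_le_mul_of_nonneg_left hr4' (by positivity))
  calc D * D ^ (1 / 4 : ℝ) * |∑' u, er p q b a u| ≤
        (q * P ^ 2) * (q * s) * (2 * (q : ℝ) ^ 2 * (s ^ 6)⁻¹) :=
        mul_le_mul hm1 hm2 (abs_nonneg _) (by positivity)
    _ = 2 * (q : ℝ) ^ 4 / s := by
        rw [← hsP]
        field_simp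
    _ < c := by
        rw [div_lt_iff₀ hs0]
        rw [div_lt_iff₀ hc] at hsc
        linarith

end Pool.Agent.K1H4.LC
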